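import Pool.Agent.H30.HQ.Targets
import Pool.Agent.H89.FR.DS

/-!
The distance between points of the rings at two latitudes.
-/

namespace Pool.Agent.H14.HQ

noncomputable section

open Pool.Agent.H48.FR Pool.Agent.H30.HQ
open Pool.Agent.H89.FR.DS (hp_split tl_yv yv_zero rs_mul cos_dist)

variable {𝕜 : Type} [NormedDivisionRing 𝕜] [StarRing 𝕜] [NormedAlgebra ℝ 𝕜] [PF 𝕜] {n : ℕ}

lemma norm_hp_yv_sq2 {x : Fin (n + 1) → 𝕜} (hx : tl x ≠ 0) (ρ ρ' : ℝ) {q q' : 𝕜} (hq : ‖q‖ = 1)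
    (hq' : ‖q'‖ = 1) :
    ‖hp (yv ρ x q) (yv ρ' x q')‖ ^ 2 = (Real.cos ρ * Real.cos ρ') ^ 2 +
      (Real.sin ρ * Real.sin ρ') ^ 2 +
      2 * (Real.cos ρ * Real.cos ρ') * (Real.sin ρ * Real.sin ρ') * re (q * star q') := by
  have hv : hp (vv x) (vv x) = 1 := by
    rw [hp_self, nrm_vv hx, one_pow, map_one]
  have e1 : hp (yv ρ x q) (yv ρ' x q') =
      rs (Real.cos ρ * Real.cos ρ') + rs (Real.sin ρ * Real.sin ρ') * (q * star q') := by
    rw [hp_split, tl_yv, tl_yv, yv_zero, yv_zero, hp_smul_left, hp_smul_right, hv, one_mul,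
      star_mul, star_rs, star_rs, rs_mul, ← rs_mul (Real.sin ρ)]
    congr 1
    rw [← rs_mul_comm, mul_assoc, mul_assoc, ← mul_assoc q, ← rs_mul_comm, mul_assoc]
  rw [e1, Pool.Agent.H48.FR.norm_add_sq, norm_rs, norm_mul, norm_rs, norm_mul, norm_star', hq,
    hq', mul_one, mul_one, sq_abs, sq_abs, star_mul, star_rs, re_rs_mul, re_mul_rs, star_mul,
    star_star]
  have e2 : re (q' * star q) = re (q * star q') := by
    rw [← re_star (q' * star q), star_mul, star_star]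
  rw [e2]
  ring

/-- DS2. The distance between points of the rings at two latitudes. -/
theorem pf_DS2 : T_DS2 := by
  intro 𝕜 _ _ _ _ n ρ ρ' x q q' ht hq hq' hy hy'
  rw [Real.cos_two_mul (dist _ _), cos_dist (nrm_yv ht ρ hq) (nrm_yv ht ρ' hq') hy hy',
    norm_hp_yv_sq2 ht ρ ρ' hq hq', Real.cos_two_mul ρ, Real.cos_two_mul ρ', Real.sin_two_mul,
    Real.sin_two_mul]
  have h2 : Real.sin ρ ^ 2 = 1 - Real.cos ρ ^ 2 := by
    linarith [Real.sin_sq_add_cos_sq ρ]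
  have h2' : Real.sin ρ' ^ 2 = 1 - Real.cos ρ' ^ 2 := by
    linarith [Real.sin_sq_add_cos_sq ρ']
  rw [mul_pow (Real.sin ρ), h2, h2']
  ring

end

end Pool.Agent.H14.HQ
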