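import Pool.Agent.H30.HQ.Targets

/-!
The map onto the quaternionic projective space is onto in the top homology.
-/

namespace Pool.Agent.H14.HQ

open Pool.Agent.H30.HQ

/-- SUR. The map onto the quaternionic projective space is onto in the top homology. -/
theorem pf_SUR (hMVS : T_MVS) (hSUS : T_SUS) : T_SUR := by
  intro k g hg z hz
  obtain ⟨O₁, O₂, s, ho₁, ho₂, hu, hs, hv₁, hv₂, hw₁, hw₂⟩ := hSUS k g hg
  exact hMVS _ _ g O₁ O₂ s ho₁ ho₂ hu hs (4 * (k + 1)) hv₁ hv₂ hw₁ hw₂ z hz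

end Pool.Agent.H14.HQ
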